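import Pool.Agent.H86.DB.Targets

/-!
Row L1 of `db_modules` (`MP_44217d_ag`): the bounds at the origin.
-/

open Module MvPolynomial

namespace Pool.Agent.H54.DB

open Pool.Agent.H12.Defect Pool.Agent.H15.Defect Pool.Agent.H86.DB

universe u

theorem finite_vars (k : Type u) [Field k] (m : ℕ) :
    Module.Finite k (MvPolynomial (Fin m) k ⧸
      Ideal.span (Set.range (X : Fin m → MvPolynomial (Fin m) k))) := by
  set mm : Ideal (MvPolynomial (Fin m) k) :=
    Ideal.span (Set.range (X : Fin m → MvPolynomial (Fin m) k)) with hmm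
  have h : ∀ p : MvPolynomial (Fin m) k, ∃ c : k, Ideal.Quotient.mk mm p =
      Ideal.Quotient.mk mm (C c) := by
    intro p
    induction p using MvPolynomial.induction_on with
    | C a => exact ⟨a, rfl⟩
    | add p q hp hq =>
      obtain ⟨a, ha⟩ := hp
      obtain ⟨b, hb⟩ := hq
      exact ⟨a + b, by rw [map_add, ha, hb, C_add, map_add]⟩
    | mul_X p i _ =>
      refine ⟨0, ?_⟩
      rw [C_0, map_zero, Ideal.Quotient.eq_zero_iff_mem]
      exact mm.mul_mem_left p (Ideal.subset_span ⟨i, rfl⟩)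
  refine Module.Finite.of_surjective (Algebra.linearMap k (MvPolynomial (Fin m) k ⧸ mm)) ?_
  intro y
  obtain ⟨p, rfl⟩ := Ideal.Quotient.mk_surjective y
  obtain ⟨c, hc⟩ := h p
  exact ⟨c, hc.symm⟩

theorem pf_L1 (hM : T_MON.{u}) (hP : T_PERT.{u}) (hL : T_LOC.{u}) (hI : T_LIM) : T_L1.{u} := by
  intro k _ _ m I hO
  have hInf : Infinite k := inferInstance
  obtain ⟨s, hs⟩ := hO
  have hf : Module.Finite k (MvPolynomial (Fin m) k ⧸ I) := by
    have h1 := (hM k m (Ideal.span (Set.range (X : Fin m → MvPolynomial (Fin m) k))) s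
      (finite_vars k m)).1
    exact Module.Finite.of_surjective (Ideal.Quotient.factorₐ k hs).toLinearMap
      (Ideal.Quotient.factor_surjective hs)
  obtain ⟨f, R, N, hLd, hfI, hN⟩ := hP k m I ⟨s, hs⟩
  obtain ⟨e, he⟩ := hL k m R N I f hf hLd hfI hN
  refine ⟨e, N, ?_, he⟩
  refine hI m e (finrank k (MvPolynomial (Fin m) k ⧸ I)) N fun n => ?_
  exact (he n).2.trans (hM k m I (N + (n + 1)) hf).2

end Pool.Agent.H54.DB
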